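import Pool.Agent.Helper66.PV.Defs

/-!
# Project PV: the congruence class for every difference
-/

set_option autoImplicit false

open Finset

namespace Pool.Agent.Helper66.PV

open Pool.Agent.Helper1.MT

theorem progressionV : ProgressionV := by
  classical
  intro k D0 d R hk hd
  set B := D0 + 2 * k + k * d with hB
  set E := 2 * k + 1 with hE
  set r : ℕ → ℕ := fun j => Nat.nth Nat.Prime (B + j) with hr
  set T := (k - 1) * d with hT
  set J := (range (T * (R + 1))).filter (fun j => ¬ d ∣ j / (R + 1)) with hJ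
  set S := (range (B + 1)).filter Nat.Prime ∪ J.image r with hS
  set tt : ℕ → ℕ := fun p => (Nat.count Nat.Prime p - B) / (R + 1) with htt
  set res : ℕ → ℕ := fun p => if p ≤ B then (if p ∣ d then 1 else (if p ≤ k then (k + 1) * d
    else d)) else (p ^ E - 1) * tt p with hres
  have hrprime : ∀ j, (r j).Prime := fun j => Nat.prime_nth_prime _
  have hrB : ∀ j, B < r j := by
    intro j
    have := Nat.add_two_le_nth_prime (B + j)
    simp only [hr]
    omega
  have htr : ∀ j, tt (r j) = j / (R + 1) := by
    intro j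
    simp only [htt, hr]
    rw [Nat.count_nth_of_infinite Nat.infinite_setOfPred_prime]
    congr 1
    omega
  have hSprime : ∀ p ∈ S, p.Prime := by
    intro p hp
    rw [hS, Finset.mem_union, Finset.mem_filter, Finset.mem_image] at hp
    rcases hp with hp | ⟨j, _, rfl⟩
    · exact hp.2
    · exact hrprime j
  have hSsmall : ∀ p : ℕ, p.Prime → p ≤ B → p ∈ S := by
    intro p hp hpB
    rw [hS, Finset.mem_union, Finset.mem_filter, Finset.mem_range]
    exact Or.inl ⟨by omega, hp⟩
  have hE0 : E ≠ 0 := by omega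
  have hppos : ∀ p ∈ S, 0 < p ^ E := fun p hp => pow_pos (hSprime p hp).pos E
  have hs0 : ∀ p ∈ S, (fun p : ℕ => p ^ E) p ≠ 0 := fun p hp => (hppos p hp).ne'
  have hpair : Set.Pairwise (S : Set ℕ) (Function.onFun Nat.Coprime (fun p : ℕ => p ^ E)) := by
    intro p hp q hq hpq
    exact Nat.Coprime.pow E E ((Nat.coprime_primes (hSprime p hp) (hSprime q hq)).mpr hpq)
  obtain ⟨a0, ha0⟩ := Nat.chineseRemainderOfFinset res (fun p : ℕ => p ^ E) S hs0 hpair
  set W := ∏ p ∈ S, p ^ E with hW
  have hW0 : 0 < W := Finset.prod_pos fun p hp => hppos p hp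
  have hEdvd : ∀ p ∈ S, p ^ E ∣ W := fun p hp =>
    Finset.dvd_prod_of_mem (fun p : ℕ => p ^ E) hp
  have hWdvd : ∀ p ∈ S, p ∣ W := fun p hp => (dvd_pow_self p hE0).trans (hEdvd p hp)
  have hmemS : ∀ p : ℕ, p.Prime → p ∣ W → p ∈ S := by
    intro p hp hpW
    rw [hW] at hpW
    obtain ⟨q, hq, hpq⟩ := (hp.prime.dvd_finsetProd_iff _).mp hpW
    have h1 : p ∣ q := hp.dvd_of_dvd_pow hpq
    have h2 : p = q := (Nat.prime_dvd_prime_iff_eq hp (hSprime q hq)).mp h1
    rw [h2]
    exact hq
  have hcong : ∀ x : ℕ, x ≡ a0 [MOD W] → ∀ y : ℕ, ∀ p ∈ S, x + y ≡ res p + y [MOD p ^ E] :=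
    fun x hx y p hp => Nat.ModEq.add_right _ ((hx.of_dvd (hEdvd p hp)).trans (ha0 p hp))
  have hkdB : k * d ≤ B := by omega
  have hd_le : d ≤ k * d := Nat.le_mul_of_pos_left d (by omega)
  have h2E : 2 * k < 2 ^ E := by
    have h1 : E < 2 ^ E := Nat.lt_two_pow_self
    omega
  -- primes which are large or divide `d` do not divide `x + i d`
  have hcop : ∀ x : ℕ, x ≡ a0 [MOD W] → ∀ i : ℕ, i < k → ∀ p ∈ S, (k < p ∨ p ∣ d) →
      ¬ p ∣ x + i * d := by
    intro x hx i hi p hp hpk hdvd
    have hpp := hSprime p hp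
    have hcE := hcong x hx (i * d) p hp
    have hcp : x + i * d ≡ res p + i * d [MOD p] := hcE.of_dvd (dvd_pow_self p hE0)
    have hdvd1 : p ∣ res p + i * d := (Nat.ModEq.dvd_iff hcp dvd_rfl).mp hdvd
    by_cases hpB : p ≤ B
    · by_cases hpd : p ∣ d
      · have h1 : res p = 1 := by simp only [hres]; rw [if_pos hpB, if_pos hpd]
        rw [h1] at hdvd1
        have h2 : p ∣ 1 := (Nat.dvd_add_left (Dvd.dvd.mul_left hpd i)).mp hdvd1
        exact hpp.one_lt.ne' (Nat.dvd_one.mp h2)
      · have hkp : k < p := hpk.resolve_right hpd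
        have h1 : res p = d := by
          simp only [hres]
          rw [if_pos hpB, if_neg hpd, if_neg (by omega)]
        have h2 : res p + i * d = (i + 1) * d := by rw [h1]; ring
        rw [h2] at hdvd1
        have h3 : p ∣ i + 1 := (hpp.dvd_mul.mp hdvd1).resolve_right hpd
        have h4 : p ≤ i + 1 := Nat.le_of_dvd (by omega) h3
        omega
    · rw [hS, Finset.mem_union, Finset.mem_filter, Finset.mem_image, Finset.mem_range] at hp
      obtain ⟨j, hj, rfl⟩ := hp.resolve_left (fun h => hpB (by omega))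
      rw [hJ, Finset.mem_filter, Finset.mem_range] at hj
      have h1 : res (r j) = (r j ^ E - 1) * (j / (R + 1)) := by
        simp only [hres]
        rw [if_neg hpB, htr]
      set t := j / (R + 1) with ht
      have htT : t < T := by
        rw [ht]
        exact Nat.div_lt_of_lt_mul (by rw [mul_comm]; exact hj.1)
      have htk : t < k * d := lt_of_lt_of_le htT (Nat.mul_le_mul_right d (by omega))
      have hik : i * d < k * d := Nat.mul_lt_mul_of_pos_right hi hd
      have h2 : r j ∣ (r j ^ E - 1) * t + i * d := by rw [← h1]; exact hdvd1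
      have h3 : r j ^ E = (r j ^ E - 1) + 1 := by
        have := pow_pos hpp.pos E
        omega
      have h4 : i * d ≡ t [MOD r j] := by
        have h5 : (r j ^ E - 1) * t + i * d ≡ (r j ^ E - 1) * t + t [MOD r j] := by
          have h6 : (r j ^ E - 1) * t + t = r j ^ E * t := by
            conv_rhs => rw [h3]
            ring
          rw [h6]
          have h7 : r j ∣ r j ^ E * t := Dvd.dvd.mul_right (dvd_pow_self _ hE0) _
          exact ((Nat.modEq_zero_iff_dvd).mpr h2).trans ((Nat.modEq_zero_iff_dvd).mpr h7).symm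
        exact Nat.ModEq.add_left_cancel' _ h5
      have h8 : i * d = t := by
        apply Nat.ModEq.eq_of_lt_of_lt h4
        · have := hrB j; omega
        · have := hrB j; omega
      exact hj.2 (h8 ▸ Dvd.intro_left i rfl)
  -- the small primes that do not divide `d`
  have hval : ∀ x : ℕ, x ≡ a0 [MOD W] → ∀ i : ℕ, ∀ p : ℕ, p.Prime → p ≤ k → ¬ p ∣ d →
      ∀ e ≤ E, p ^ e ∣ x + i * d → p ^ e ∣ i + k + 1 := by
    intro x hx i p hpp hpk hpd e he hdvd
    have hpB : p ≤ B := by omega
    have hp := hSsmall p hpp hpB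
    have hcE := hcong x hx (i * d) p hp
    have hce : x + i * d ≡ res p + i * d [MOD p ^ e] := hcE.of_dvd (pow_dvd_pow p he)
    have h1 : p ^ e ∣ res p + i * d := (Nat.ModEq.dvd_iff hce dvd_rfl).mp hdvd
    have h2 : res p = (k + 1) * d := by
      simp only [hres]
      rw [if_pos hpB, if_neg hpd, if_pos hpk]
    have h3 : res p + i * d = (i + k + 1) * d := by rw [h2]; ring
    rw [h3] at h1
    exact (Nat.Coprime.pow_left e ((hpp.coprime_iff_not_dvd).mpr hpd)).dvd_of_dvd_mul_right h1
  have hnE : ∀ x : ℕ, x ≡ a0 [MOD W] → ∀ i : ℕ, i < k → ∀ p : ℕ, p.Prime → p ≤ k →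
      ¬ p ∣ d → ¬ p ^ E ∣ x + i * d := by
    intro x hx i hi p hpp hpk hpd hdvd
    have h1 := hval x hx i p hpp hpk hpd E le_rfl hdvd
    have h2 := Nat.le_of_dvd (by omega) h1
    have h3 : 2 ^ E ≤ p ^ E := Nat.pow_le_pow_left hpp.two_le E
    omega
  refine ⟨W, a0, ⟨hW0, ?_, ?_, ?_⟩, ?_, ?_⟩
  · intro p hp hpD
    exact hWdvd p (hSsmall p hp (by omega))
  · intro i j hij p hp hdvd
    apply hWdvd p (hSsmall p hp _)
    have h1 : (((i : ℕ) * d : ℕ) : ℤ) - (((j : ℕ) * d : ℕ) : ℤ) =
        (((i : ℕ) : ℤ) - ((j : ℕ) : ℤ)) * (d : ℤ) := by push_cast; ring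
    rw [h1] at hdvd
    have hpi : Prime (p : ℤ) := Nat.prime_iff_prime_int.mp hp
    rcases hpi.dvd_or_dvd hdvd with h2 | h2
    · have h3 : ((i : ℕ) : ℤ) - ((j : ℕ) : ℤ) ≠ 0 := by
        intro h
        apply hij
        ext
        omega
      have h4 := Int.le_of_dvd (abs_pos.mpr h3) ((dvd_abs _ _).mpr h2)
      have hi := i.2
      have hj := j.2
      have h5 : |((i : ℕ) : ℤ) - ((j : ℕ) : ℤ)| ≤ k := by
        rw [abs_le]
        constructor <;> omega
      omega
    · have h3 : p ∣ d := by exact_mod_cast h2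
      have h4 := Nat.le_of_dvd hd h3
      omega
  · intro i j hij
    have h1 : (i : ℕ) * d = (j : ℕ) * d := hij
    exact Fin.ext (Nat.eq_of_mul_eq_mul_right hd h1)
  · intro i hi
    have hi1 : ((i : ℕ) + k + 1).Prime := (Finset.mem_filter.mp hi).2
    apply Nat.Coprime.symm
    apply Nat.coprime_of_dvd
    intro p hpp hpW hpN
    have hpS := hmemS p hpp hpW
    by_cases hc : k < p ∨ p ∣ d
    · exact hcop a0 rfl i i.2 p hpS hc hpN
    · push Not at hc
      have h1 := hval a0 rfl i p hpp hc.1 hc.2 1 (by omega) (by rw [pow_one]; exact hpN)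
      rw [pow_one] at h1
      have h2 := (Nat.prime_dvd_prime_iff_eq hpp hi1).mp h1
      omega
  · intro n hn hnv
    refine ⟨?_, ?_⟩
    · intro i
      have hi := i.2
      set N := n + (i : ℕ) * d with hN
      have hN0 : 0 < N := by omega
      set g := Nat.gcd N W with hg
      have hg0 : 0 < g := Nat.gcd_pos_of_pos_left _ hN0
      have hgN : g ∣ N := Nat.gcd_dvd_left _ _
      have hgW : g ∣ W := Nat.gcd_dvd_right _ _
      have hgp : ∀ p : ℕ, p.Prime → p ∣ g → p ≤ k ∧ ¬ p ∣ d := by
        intro p hpp hpg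
        have hpS := hmemS p hpp (hpg.trans hgW)
        by_contra hcon
        have hc : k < p ∨ p ∣ d := by
          by_contra h
          push Not at h
          exact hcon h
        exact hcop n hnv i hi p hpS hc (hpg.trans hgN)
      have hgA : g ∣ (i : ℕ) + k + 1 := by
        rw [Nat.dvd_iff_prime_pow_dvd_dvd]
        intro p a hpp hpa
        rcases Nat.eq_zero_or_pos a with ha | ha
        · rw [ha, pow_zero]
          exact one_dvd _
        · have hpg : p ∣ g := (dvd_pow_self p ha.ne').trans hpa
          obtain ⟨h1, h2⟩ := hgp p hpp hpg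
          by_cases hae : a ≤ E
          · exact hval n hnv i p hpp h1 h2 a hae (hpa.trans hgN)
          · exfalso
            exact hnE n hnv i hi p hpp h1 h2
              (((pow_dvd_pow p (by omega)).trans hpa).trans hgN)
      obtain ⟨m, hm⟩ := hgN
      refine ⟨g, m, hm, hg0, ?_, fun p hpp hpg => (hgp p hpp hpg).1, ?_⟩
      · have := Nat.le_of_dvd (by omega) hgA
        omega
      · apply Nat.Coprime.symm
        apply Nat.coprime_of_dvd
        intro p hpp hpW hpm
        have hpS := hmemS p hpp hpW
        have hpN : p ∣ N := by rw [hm]; exact Dvd.dvd.mul_left hpm _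
        by_cases hc : k < p ∨ p ∣ d
        · exact hcop n hnv i hi p hpS hc hpN
        · push Not at hc
          obtain ⟨a, ha⟩ : ∃ a, a = g.factorization p := ⟨_, rfl⟩
          have h1 : p ^ a ∣ g := by rw [ha]; exact Nat.ordProj_dvd g p
          have h2 : ¬ p ^ (a + 1) ∣ g := by
            rw [ha]
            exact Nat.pow_succ_factorization_not_dvd hg0.ne' hpp
          have h3 : p ^ (a + 1) ∣ N := by
            rw [hm, pow_succ]
            exact Nat.mul_dvd_mul h1 hpm
          by_cases hae : a + 1 ≤ E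
          · apply h2
            rw [hg]
            exact Nat.dvd_gcd h3 ((pow_dvd_pow p hae).trans (hEdvd p hpS))
          · exact hnE n hnv i hi p hpp hc.1 hc.2 ((pow_dvd_pow p (by omega)).trans h3)
    · intro t ht hdt
      have hsub : (range (R + 1)).image (fun s => r (t * (R + 1) + s)) ⊆
          (n + t).primeFactors := by
        intro p hp
        rw [Finset.mem_image] at hp
        obtain ⟨s, hs, rfl⟩ := hp
        rw [Finset.mem_range] at hs
        have hdiv : (t * (R + 1) + s) / (R + 1) = t := by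
          rw [mul_comm, Nat.mul_add_div (by omega), Nat.div_eq_of_lt hs, add_zero]
        have hjJ : t * (R + 1) + s ∈ J := by
          rw [hJ, Finset.mem_filter, Finset.mem_range, hdiv]
          refine ⟨?_, hdt⟩
          calc t * (R + 1) + s < t * (R + 1) + (R + 1) := by omega
            _ = (t + 1) * (R + 1) := by ring
            _ ≤ T * (R + 1) := Nat.mul_le_mul_right _ ht
        have hmemS' : r (t * (R + 1) + s) ∈ S := by
          rw [hS, Finset.mem_union]
          exact Or.inr (Finset.mem_image_of_mem _ hjJ)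
        have hpp := hrprime (t * (R + 1) + s)
        rw [Nat.mem_primeFactors]
        refine ⟨hpp, ?_, by omega⟩
        have hc := hcong n hnv t _ hmemS'
        have h1 : res (r (t * (R + 1) + s)) = (r (t * (R + 1) + s) ^ E - 1) * t := by
          simp only [hres]
          have := hrB (t * (R + 1) + s)
          rw [if_neg (by omega), htr, hdiv]
        rw [h1] at hc
        have h3 : r (t * (R + 1) + s) ^ E = (r (t * (R + 1) + s) ^ E - 1) + 1 := by
          have := pow_pos hpp.pos E
          omega
        have h6 : (r (t * (R + 1) + s) ^ E - 1) * t + t = r (t * (R + 1) + s) ^ E * t := by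
          conv_rhs => rw [h3]
          ring
        rw [h6] at hc
        exact (dvd_pow_self _ hE0).trans
          ((Nat.ModEq.dvd_iff hc dvd_rfl).mpr (Dvd.intro _ rfl))
      have hinj : Set.InjOn (fun s => r (t * (R + 1) + s)) (range (R + 1)) := by
        intro s _ s' _ h
        have h1 : B + (t * (R + 1) + s) = B + (t * (R + 1) + s') :=
          Nat.nth_injective Nat.infinite_setOfPred_prime h
        omega
      have hcard := Finset.card_le_card hsub
      rw [Finset.card_image_of_injOn hinj, Finset.card_range] at hcard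
      omega

end Pool.Agent.Helper66.PV
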